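import Mathlib

/-!
# Mediangle graphs, hyperplanes, monoliths

Definitions following the problem file of `MP_b747c0_co`.
-/

namespace Pool.Agent.Lib_helper16.Mediangle

universe u v w

variable {V : Type u}

/-- The interval `I(x,y)`: the vertices `z` (in the same component as `x` and `y`) with
`d(x,y) = d(x,z) + d(z,y)`. -/
def interval (G : SimpleGraph V) (x y : V) : Set V :=
  {z | G.Reachable x z ∧ G.Reachable z y ∧ G.dist x y = G.dist x z + G.dist z y}

/-- A set of vertices (an induced subgraph) is convex if it contains all the intervals between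
its vertices. -/
def IsConvex (G : SimpleGraph V) (Y : Set V) : Prop :=
  ∀ x ∈ Y, ∀ y ∈ Y, interval G x y ⊆ Y

/-- A set of vertices (an induced subgraph) is gated if every vertex `x` has a gate in it. -/
def IsGated (G : SimpleGraph V) (Y : Set V) : Prop :=
  ∀ x : V, ∃ y ∈ Y, ∀ z ∈ Y, y ∈ interval G x z

/-- `c : ZMod (2 * k) → V` runs once around a convex cycle of even length `2 * k ≥ 4` of `G`:
the `c i` are distinct, `c i` and `c j` are adjacent exactly when `i` and `j` are consecutive
modulo `2 * k`, and the set of the `c i` is convex. The vertex opposite to `c i` is `c (i + k)`,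
and the edge opposite to `{c i, c (i+1)}` is `{c (i+k), c (i+k+1)}`. -/
structure IsConvexEvenCycle (G : SimpleGraph V) (k : ℕ) (c : ZMod (2 * k) → V) : Prop where
  two_le : 2 ≤ k
  injective : Function.Injective c
  adj_iff : ∀ i j, G.Adj (c i) (c j) ↔ (j = i + 1 ∨ i = j + 1)
  convex : IsConvex G (Set.range c)

/-- The edges of a cycle `c`. -/
def cycleEdges {k : ℕ} (c : ZMod (2 * k) → V) : Set (Sym2 V) :=
  {e | ∃ i, e = s(c i, c (i + 1))}

/-- Mediangle graphs. -/
structure IsMediangle (G : SimpleGraph V) : Prop where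
  connected : G.Connected
  /-- the triangle condition -/
  triangle : ∀ o x y : V, G.dist o x = G.dist o y → G.dist x y = 1 →
    ∃ z, G.Adj z x ∧ G.Adj z y ∧ z ∈ interval G o x ∧ z ∈ interval G o y
  /-- there is no induced `K₄` minus an edge -/
  no_diamond : ∀ a b c d : V, a ≠ b → ¬ G.Adj a b → G.Adj c d →
    G.Adj a c → G.Adj a d → G.Adj b c → ¬ G.Adj b d
  /-- the cycle condition -/
  cycle : ∀ o x y z : V, x ≠ y → G.dist o x = G.dist o y → G.dist o z = G.dist o x + 1 →
    G.dist x z = 1 → G.dist y z = 1 →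
    ∃ (k : ℕ) (c : ZMod (2 * k) → V), IsConvexEvenCycle G k c ∧
      ∃ i, c i = z ∧ c (i + 1) = x ∧ c (i - 1) = y ∧
        c (i + k) ∈ interval G o x ∩ interval G o y
  /-- two distinct convex cycles of even length share at most one edge -/
  inter : ∀ (k : ℕ) (c : ZMod (2 * k) → V) (k' : ℕ) (c' : ZMod (2 * k') → V),
    IsConvexEvenCycle G k c → IsConvexEvenCycle G k' c' → Set.range c ≠ Set.range c' →
      (cycleEdges c ∩ cycleEdges c').Subsingleton

/-- The relation generating the hyperplanes: two edges are related if they lie in a common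
`3`-cycle, or if they are opposite edges of a convex cycle of even length. -/
inductive EdgeRel (G : SimpleGraph V) : Sym2 V → Sym2 V → Prop
  | triangle (x y z : V) (hxy : G.Adj x y) (hyz : G.Adj y z) (hxz : G.Adj x z) :
      EdgeRel G s(x, y) s(y, z)
  | opposite (k : ℕ) (c : ZMod (2 * k) → V) (hc : IsConvexEvenCycle G k c) (i : ZMod (2 * k)) :
      EdgeRel G s(c i, c (i + 1)) s(c (i + k), c (i + k + 1))

/-- A hyperplane is a class of edges for the equivalence relation generated by `EdgeRel`. -/
def IsHyperplane (G : SimpleGraph V) (J : Set (Sym2 V)) : Prop :=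
  ∃ e ∈ G.edgeSet, J = {e' | e' ∈ G.edgeSet ∧ Relation.EqvGen (EdgeRel G) e e'}

/-- Two hyperplanes are transverse if some edge of `J₁` and some edge of `J₂` are consecutive
edges of a convex cycle of even length. -/
def Transverse (G : SimpleGraph V) (J₁ J₂ : Set (Sym2 V)) : Prop :=
  ∃ (k : ℕ) (c : ZMod (2 * k) → V), IsConvexEvenCycle G k c ∧ ∃ i,
    (s(c (i - 1), c i) ∈ J₁ ∧ s(c i, c (i + 1)) ∈ J₂) ∨
    (s(c (i - 1), c i) ∈ J₂ ∧ s(c i, c (i + 1)) ∈ J₁)

/-- `J` contains an edge of the subgraph induced on `Y`. -/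
def Crosses (J : Set (Sym2 V)) (Y : Set V) : Prop :=
  ∃ x ∈ Y, ∃ y ∈ Y, s(x, y) ∈ J

/-- A monolith is a gated subgraph whose hyperplanes are pairwise transverse. -/
def IsMonolith (G : SimpleGraph V) (Y : Set V) : Prop :=
  IsGated G Y ∧ ∀ J₁ J₂, IsHyperplane G J₁ → IsHyperplane G J₂ → J₁ ≠ J₂ →
    Crosses J₁ Y → Crosses J₂ Y → Transverse G J₁ J₂

/-- A finite Coxeter graph: the Cayley graph of a finite Coxeter group with respect to its
standard Coxeter generators. -/
def IsFiniteCoxeterGraph (H : SimpleGraph V) : Prop :=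
  ∃ (B : Type w) (M : CoxeterMatrix B) (W : Type u) (_ : Group W) (_ : Finite W)
    (cs : CoxeterSystem M W),
    Nonempty (H ≃g SimpleGraph.mulCayley (Set.range cs.simple))

/-- The Cartesian product of a family of graphs: two vertices are adjacent if they differ in
exactly one coordinate, and there they are adjacent. -/
def cartesianProduct {ι : Type w} {P : ι → Type v} (H : ∀ i, SimpleGraph (P i)) :
    SimpleGraph (∀ i, P i) where
  Adj f g := ∃ i, (H i).Adj (f i) (g i) ∧ ∀ j, j ≠ i → f j = g j
  symm := ⟨fun _ _ ⟨i, h, h'⟩ => ⟨i, h.symm, fun j hj => (h' j hj).symm⟩⟩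
  loopless := ⟨fun _ ⟨_, h, _⟩ => h.ne rfl⟩

end Pool.Agent.Lib_helper16.Mediangle
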