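import Pool.Agent.Lib_helper16.CoxParity
import Pool.Agent.Lib_helper16.Mediangle.Defs

/-!
# Labels of convex squares and hexagons in products of complete graphs and Coxeter graphs
-/

namespace Pool.Agent.Lib_helper16.Mediangle

open Pool.Agent.Lib_helper16

section cox

variable {B : Type*} {M : CoxeterMatrix B} {W : Type*} [Group W] (cs : CoxeterSystem M W)

/-- `a` is a simple reflection. -/
def Sim (a : W) : Prop := a ∈ Set.range cs.simple

variable {cs}

lemma Sim.mul_self {a : W} (ha : Sim cs a) : a * a = 1 := by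
  obtain ⟨i, rfl⟩ := ha; simp

lemma Sim.inv {a : W} (ha : Sim cs a) : a⁻¹ = a :=
  inv_eq_of_mul_eq_one_left ha.mul_self

lemma Sim.ne_one {a : W} (ha : Sim cs a) : a ≠ 1 := by
  obtain ⟨i, rfl⟩ := ha
  intro h
  have := cs.length_simple i
  rw [h] at this
  simp at this

lemma Sim.eta {a : W} (ha : Sim cs a) (t : W) : eta cs a t = ind (t = a) := by
  obtain ⟨i, rfl⟩ := ha; exact eta_simple cs i t

lemma Sim.eta2 {a b : W} (ha : Sim cs a) (hb : Sim cs b) (t : W) :
    Pool.Agent.Lib_helper16.eta cs (a * b) t = ind (t = b) + ind (b * t * b = a) := by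
  rw [eta_mul, hb.eta, ha.eta, hb.inv]

lemma Sim.eta3 {a b c : W} (ha : Sim cs a) (hb : Sim cs b) (hc : Sim cs c) (t : W) :
    Pool.Agent.Lib_helper16.eta cs (a * b * c) t =
      ind (t = c) + (ind (c * t * c = b) + ind (b * (c * t * c) * b = a)) := by
  rw [eta_mul, hc.eta, ha.eta2 hb, hc.inv]

lemma sq1 {a b c d : W} (ha : Sim cs a) (hb : Sim cs b) (hc : Sim cs c) (hd : Sim cs d)
    (h : a * b = d * c) (had : a ≠ d) (hab : a ≠ b) : c * b * c = d := by
  have h1 := ha.eta2 hb b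
  rw [h, hd.eta2 hc b] at h1
  have h2 : b ≠ c := by
    rintro rfl
    exact had (mul_right_cancel h)
  have h3 : ¬ (b * b * b = a) := by
    rw [hb.mul_self, one_mul]; exact fun h => hab h.symm
  rw [ind_false h2, ind_true rfl, ind_false h3] at h1
  by_contra hne
  rw [ind_false hne] at h1
  simp at h1

lemma sq {a b c d : W} (ha : Sim cs a) (hb : Sim cs b) (hc : Sim cs c) (hd : Sim cs d)
    (h : a * b = d * c) (had : a ≠ d) (hab : a ≠ b) : a = c ∧ b = d := by
  have h1 := sq1 ha hb hc hd h had hab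
  have hbc : b ≠ c := by
    rintro rfl
    exact had (mul_right_cancel h)
  -- b * c = c * d
  have h2 : b * c = c * d := by
    rw [← h1]
    calc b * c = (c * c) * (b * c) := by rw [hc.mul_self]; simp
      _ = c * (c * b * c) := by simp only [mul_assoc]
  have h3 := sq1 hb hc hd hc h2 hbc hbc
  -- d * c * d = c
  have h4 : c * d = d * c := by
    calc c * d = (d * c * d) * d := by rw [h3]
      _ = d * c * (d * d) := by simp only [mul_assoc]
      _ = d * c := by rw [hd.mul_self]; simp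
  have h5 : b = d := by
    apply mul_right_cancel (b := c)
    rw [h2, h4]
  refine ⟨?_, h5⟩
  apply mul_right_cancel (b := b)
  rw [h]
  rw [h5, h4]

lemma hexagon {a₁ a₂ a₃ a₄ a₅ a₆ : W} (h₁ : Sim cs a₁) (h₂ : Sim cs a₂) (h₃ : Sim cs a₃)
    (h₄ : Sim cs a₄) (h₅ : Sim cs a₅) (h₆ : Sim cs a₆) (h : a₁ * a₂ * a₃ = a₆ * a₅ * a₄)
    (n12 : a₁ * a₂ ≠ a₂ * a₁) (n23 : a₂ * a₃ ≠ a₃ * a₂) (n34 : a₃ * a₄ ≠ a₄ * a₃)
    (n45 : a₄ * a₅ ≠ a₅ * a₄) : a₄ = a₂ := by
  have ne12 : a₁ ≠ a₂ := by rintro rfl; exact n12 rfl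
  have ne23 : a₂ ≠ a₃ := by rintro rfl; exact n23 rfl
  have ne34 : a₃ ≠ a₄ := by rintro rfl; exact n34 rfl
  have ne45 : a₄ ≠ a₅ := by rintro rfl; exact n45 rfl
  have e1 := h₁.eta3 h₂ h₃ a₃
  rw [h, h₆.eta3 h₅ h₄ a₃, h₃.mul_self, one_mul] at e1
  have f1 : ¬ (a₂ * a₃ * a₂ = a₁) := by
    intro hc
    have h' : a₁ * a₂ = a₂ * a₃ := by
      rw [← hc, mul_assoc, mul_assoc, h₂.mul_self, mul_one]
    obtain ⟨h13, -⟩ := sq h₁ h₂ h₃ h₂ h' ne12 ne12
    apply n12
    rw [h', h13]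
  have f2 : ¬ (a₄ * a₃ * a₄ = a₅) := by
    intro hc
    have h' : a₄ * a₃ = a₅ * a₄ := by
      rw [← hc, mul_assoc, mul_assoc, h₄.mul_self, mul_one]
    obtain ⟨-, h35⟩ := sq h₄ h₃ h₄ h₅ h' ne45 ne34.symm
    apply n45
    rw [← h', h35]
  rw [ind_false ne34, ind_false f2, ind_true rfl, ind_false (fun h : a₃ = a₂ => ne23 h.symm),
    ind_false f1] at e1
  have f3 : a₅ * (a₄ * a₃ * a₄) * a₅ = a₆ := by
    by_contra hne
    rw [ind_false hne] at e1
    simp at e1
  have f4 : a₅ * a₄ = a₁ * a₂ := by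
    apply mul_right_cancel (b := a₃)
    rw [h, ← f3]
    calc a₅ * a₄ * a₃ = a₅ * a₄ * a₃ * (a₄ * (a₅ * a₅) * a₄) := by
          rw [h₅.mul_self, mul_one, h₄.mul_self, mul_one]
      _ = _ := by simp only [mul_assoc]
  by_cases h15 : a₁ = a₅
  · subst h15
    exact mul_left_cancel f4
  · obtain ⟨h14, h25⟩ := sq h₁ h₂ h₄ h₅ f4.symm h15 ne12
    exfalso
    apply n12
    rw [← f4, h14, h25]

end cox

section graph

universe u v w

variable {V : Type u} {G : SimpleGraph V}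

lemma mem_interval_of_common {x y p : V} (hxp : G.Adj x p) (hpy : G.Adj p y) (hne : x ≠ y)
    (hna : ¬ G.Adj x y) : p ∈ interval G x y := by
  refine ⟨hxp.reachable, hpy.reachable, ?_⟩
  have h1 : G.dist x p = 1 := SimpleGraph.dist_eq_one_iff_adj.2 hxp
  have h2 : G.dist p y = 1 := SimpleGraph.dist_eq_one_iff_adj.2 hpy
  have hr : G.Reachable x y := hxp.reachable.trans hpy.reachable
  have h3 : G.dist x y ≤ 2 := by
    have := SimpleGraph.dist_le (SimpleGraph.Walk.cons hxp (SimpleGraph.Walk.cons hpy .nil))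
    simpa using this
  have h4 : G.dist x y ≠ 0 := by
    intro h
    exact hne ((hr.dist_eq_zero_iff).1 h)
  have h5 : G.dist x y ≠ 1 := fun h => hna (SimpleGraph.dist_eq_one_iff_adj.1 h)
  omega

/-- `z` is the unique common neighbour of the non-adjacent distinct vertices `x`, `y`. -/
def UCN (G : SimpleGraph V) (x z y : V) : Prop :=
  G.Adj x z ∧ G.Adj z y ∧ x ≠ y ∧ ¬ G.Adj x y ∧ ∀ p, G.Adj x p → G.Adj p y → p = z

/-- The configuration used to exclude embeddings. -/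
structure Config (G : SimpleGraph V) (a b : ℕ → V) (w : V) : Prop where
  a0 : b 0 = a 0
  a1 : b 1 = a 1
  ha : UCN G (a 0) (a 1) (a 2) ∧ UCN G (a 1) (a 2) (a 3) ∧ UCN G (a 2) (a 3) (a 4) ∧
    UCN G (a 3) (a 4) (a 5) ∧ UCN G (a 4) (a 5) (a 0) ∧ UCN G (a 5) (a 0) (a 1)
  hb : UCN G (b 0) (b 1) (b 2) ∧ UCN G (b 1) (b 2) (b 3) ∧ UCN G (b 2) (b 3) (b 4) ∧
    UCN G (b 3) (b 4) (b 5) ∧ UCN G (b 4) (b 5) (b 0) ∧ UCN G (b 5) (b 0) (b 1)
  hab : UCN G (a 5) (a 0) (b 5)
  ne : a 2 ≠ b 2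
  nadj : ¬ G.Adj (a 2) (b 2)
  w1 : a 1 ≠ w
  aw : G.Adj (a 2) w
  bw : G.Adj (b 2) w

variable {ι : Type v} {P : ι → Type w} (H : ∀ i, SimpleGraph (P i)) (φ : V → ∀ i, P i)

/-- `φ x`, `φ y` are adjacent through direction `i`. -/
def Dir (i : ι) (x y : V) : Prop :=
  (H i).Adj (φ x i) (φ y i) ∧ ∀ j, j ≠ i → φ x j = φ y j

lemma Dir.symm {i : ι} {x y : V} (h : Dir H φ i x y) : Dir H φ i y x :=
  ⟨h.1.symm, fun j hj => (h.2 j hj).symm⟩

/-- Hypotheses on an embedding as a convex subgraph. -/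
structure ConvEmb (G : SimpleGraph V) (Q : SimpleGraph (∀ i, P i)) (φ : V → ∀ i, P i) : Prop where
  inj : Function.Injective φ
  adj : ∀ x y, G.Adj x y ↔ Q.Adj (φ x) (φ y)
  conv : ∀ x y p, p ∈ interval Q (φ x) (φ y) → ∃ z, φ z = p

end graph

section main

universe u v w

variable {V : Type u} {G : SimpleGraph V}
variable {ι : Type v} {P : ι → Type w} {H : ∀ i, SimpleGraph (P i)} {φ : V → ∀ i, P i}

/-- product graph with index in another universe -/
def cp {ι : Type v} {P : ι → Type w} (H : ∀ i, SimpleGraph (P i)) :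
    SimpleGraph (∀ i, P i) := cartesianProduct H

lemma exists_dir (hφ : ConvEmb G (cp H) φ) {x y : V} (h : G.Adj x y) : ∃ i, Dir H φ i x y := by
  obtain ⟨i, h1, h2⟩ := (hφ.adj x y).1 h
  exact ⟨i, h1, h2⟩

lemma ucn_transfer (hφ : ConvEmb G (cp H) φ) {x z y : V} (h : UCN G x z y) (p : ∀ i, P i)
    (h1 : (cp H).Adj (φ x) p) (h2 : (cp H).Adj p (φ y)) : p = φ z := by
  obtain ⟨-, -, hne, hna, hu⟩ := h
  have hp : p ∈ interval (cp H) (φ x) (φ y) :=
    mem_interval_of_common h1 h2 (fun h => hne (hφ.inj h)) (fun h => hna ((hφ.adj x y).2 h))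
  obtain ⟨q, rfl⟩ := hφ.conv x y p hp
  rw [hu q ((hφ.adj x q).2 h1) ((hφ.adj q y).2 h2)]

lemma dir_next (hφ : ConvEmb G (cp H) φ) {x z y : V} (h : UCN G x z y) {i : ι}
    (hi : Dir H φ i x z) : Dir H φ i z y := by
  classical
  obtain ⟨j, hj⟩ := exists_dir hφ h.2.1
  by_cases hij : j = i
  · rwa [hij] at hj
  · exfalso
    have hp := ucn_transfer hφ h (Function.update (φ x) j (φ y j))
      ⟨j, by
        simp only [Function.update_self]
        rw [hi.2 j hij]; exact hj.1, fun l hl => by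
        simp [Function.update_of_ne hl]⟩
      ⟨i, by
        rw [Function.update_of_ne (Ne.symm hij), ← hj.2 i (Ne.symm hij)]
        exact hi.1, fun l hl => by
        by_cases hlj : l = j
        · subst hlj; simp
        · rw [Function.update_of_ne hlj, hi.2 l hl, hj.2 l hlj]⟩
    have := congrFun hp i
    rw [Function.update_of_ne (Ne.symm hij)] at this
    exact hi.1.ne this

/-- All that is needed in the case of a Coxeter direction. -/
lemma nc (hφ : ConvEmb G (cp H) φ) {x z y : V} (h : UCN G x z y) {i : ι}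
    (hi : Dir H φ i x z) (hi' : Dir H φ i z y)
    {B : Type*} {M : CoxeterMatrix B} {W : Type*} [Group W] (cs : CoxeterSystem M W)
    (ψ : H i ≃g SimpleGraph.mulCayley (Set.range cs.simple))
    (ha : Sim cs ((ψ (φ x i))⁻¹ * ψ (φ z i))) (hb : Sim cs ((ψ (φ z i))⁻¹ * ψ (φ y i))) :
    ((ψ (φ x i))⁻¹ * ψ (φ z i)) * ((ψ (φ z i))⁻¹ * ψ (φ y i)) ≠
      ((ψ (φ z i))⁻¹ * ψ (φ y i)) * ((ψ (φ x i))⁻¹ * ψ (φ z i)) := by
  classical
  intro hc
  generalize hadef : (ψ (φ x i))⁻¹ * ψ (φ z i) = a at *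
  generalize hbdef : (ψ (φ z i))⁻¹ * ψ (φ y i) = b at *
  have gz : ψ (φ z i) = ψ (φ x i) * a := by simp [← hadef]
  have gy : ψ (φ y i) = ψ (φ x i) * (a * b) := by
    rw [← hadef, ← hbdef]; group
  have hp := ucn_transfer hφ h (Function.update (φ x) i (ψ.symm (ψ (φ x i) * b)))
      ⟨i, by
        simp only [Function.update_self]
        rw [← ψ.map_adj_iff, RelIso.apply_symm_apply, SimpleGraph.mulCayley_adj]
        refine ⟨?_, Or.inl ?_⟩
        · intro h
          exact hb.ne_one (by simpa using h)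
        · rw [inv_mul_cancel_left]; exact hb, fun l hl => by
        simp [Function.update_of_ne hl]⟩
      ⟨i, by
        simp only [Function.update_self]
        have gy' : ψ (φ y i) = (ψ (φ x i) * b) * a := by rw [gy, hc, mul_assoc]
        rw [← ψ.map_adj_iff, RelIso.apply_symm_apply, SimpleGraph.mulCayley_adj, gy']
        refine ⟨?_, Or.inl ?_⟩
        · intro h
          exact ha.ne_one (mul_eq_left.1 h.symm)
        · rw [inv_mul_cancel_left]; exact ha, fun l hl => by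
        rw [Function.update_of_ne hl, hi.2 l hl, hi'.2 l hl]⟩
  have h1 := congrFun hp i
  simp only [Function.update_self] at h1
  have h2 : ψ (φ x i) * b = ψ (φ x i) * a := by
    rw [← gz, ← h1, RelIso.apply_symm_apply]
  have h3 : b = a := mul_left_cancel h2
  rw [h3, ha.mul_self, mul_one] at gy
  apply h.2.2.1
  apply hφ.inj
  funext j
  by_cases hj : j = i
  · subst hj
    exact (ψ.injective gy).symm
  · rw [hi.2 j hj, hi'.2 j hj]

theorem no_embedding {a b : ℕ → V} {w : V} (hG : Config G a b w) (hφ : ConvEmb G (cp H) φ)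
    (hH : ∀ i, H i = ⊤ ∨ ∃ (B : Type*) (M : CoxeterMatrix B) (W : Type*) (_ : Group W)
      (cs : CoxeterSystem M W), Nonempty (H i ≃g SimpleGraph.mulCayley (Set.range cs.simple))) :
    False := by
  classical
  obtain ⟨a0, a1, ⟨A0, A1, A2, A3, A4, A5⟩, ⟨B0, B1, B2, B3, B4, B5⟩, hab, hne, nadj, w1, aw, bw⟩ := hG
  obtain ⟨i, d01⟩ := exists_dir hφ A0.1
  have d12 := dir_next hφ A0 d01
  have d23 := dir_next hφ A1 d12
  have d34 := dir_next hφ A2 d23
  have d45 := dir_next hφ A3 d34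
  have d50 := dir_next hφ A4 d45
  have e01 : Dir H φ i (b 0) (b 1) := by rw [a0, a1]; exact d01
  have e12 := dir_next hφ B0 e01
  have e23 := dir_next hφ B1 e12
  have e34 := dir_next hφ B2 e23
  have e45 := dir_next hφ B3 e34
  have e50 := dir_next hφ B4 e45
  -- difference between `a 2` and `b 2`
  have hab_i : φ (a 2) i ≠ φ (b 2) i := by
    intro h
    apply hne
    apply hφ.inj
    funext j
    by_cases hj : j = i
    · subst hj; exact h
    · rw [← d12.2 j hj, ← e12.2 j hj, a1]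
  have hab_j : ∀ j, j ≠ i → φ (a 2) j = φ (b 2) j := by
    intro j hj
    rw [← d12.2 j hj, ← e12.2 j hj, a1]
  -- directions in the square
  obtain ⟨j, hj⟩ := exists_dir hφ aw
  obtain ⟨k, hk⟩ := exists_dir hφ bw
  have hji : j = i := by
    by_contra hji
    have hkj : k = j := by
      by_contra hkj
      have := hk.2 j (Ne.symm hkj)
      apply hj.1.ne
      rw [hab_j j hji, this]
    have h1 := hj.2 i (Ne.symm hji)
    have h2 := hk.2 i (by rw [hkj]; exact Ne.symm hji)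
    exact hab_i (h1.trans h2.symm)
  subst hji
  have hkj : k = j := by
    by_contra hkj
    apply hk.1.ne
    rw [← hj.2 k hkj, hab_j k hkj]
  subst hkj
  rcases hH k with htop | ⟨B, M, W, _, cs, ⟨ψ⟩⟩
  · apply nadj
    rw [hφ.adj]
    exact ⟨k, by rw [htop]; exact hab_i, hab_j⟩
  · -- labels
    have lab : ∀ {x y : V}, Dir H φ k x y → Sim cs ((ψ (φ x k))⁻¹ * ψ (φ y k)) := by
      intro x y hd
      have := hd.1
      rw [← ψ.map_adj_iff, SimpleGraph.mulCayley_adj] at this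
      rcases this.2 with h | h
      · exact h
      · have h' : Sim cs ((ψ (φ y k))⁻¹ * ψ (φ x k)) := h
        have h2 := h'.inv
        rw [mul_inv_rev, inv_inv] at h2
        rw [h2]; exact h'
    have labsymm : ∀ {x y : V}, Dir H φ k x y →
        (ψ (φ x k))⁻¹ * ψ (φ y k) = (ψ (φ y k))⁻¹ * ψ (φ x k) := by
      intro x y hd
      have h2 := (lab hd).inv
      rw [mul_inv_rev, inv_inv] at h2
      exact h2.symm
    -- hexagon conclusion
    have hex : ∀ c : ℕ → V, UCN G (c 0) (c 1) (c 2) → UCN G (c 1) (c 2) (c 3) →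
        UCN G (c 2) (c 3) (c 4) → UCN G (c 3) (c 4) (c 5) → UCN G (c 4) (c 5) (c 0) →
        UCN G (c 5) (c 0) (c 1) → Dir H φ k (c 0) (c 1) → Dir H φ k (c 1) (c 2) →
        Dir H φ k (c 2) (c 3) → Dir H φ k (c 3) (c 4) → Dir H φ k (c 4) (c 5) →
        Dir H φ k (c 5) (c 0) →
        (ψ (φ (c 1) k))⁻¹ * ψ (φ (c 2) k) = (ψ (φ (c 5) k))⁻¹ * ψ (φ (c 0) k) := by
      intro c U0 U1 U2 U3 U4 U5 D01 D12 D23 D34 D45 D50
      -- rotate by 4: b₁ = l(c4,c5), b₂ = l(c5,c0), b₃ = l(c0,c1), b₄ = l(c1,c2), b₅ = l(c2,c3), b₆ = l(c3,c4)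
      have n12 := nc hφ U4 D45 D50 cs ψ (lab D45) (lab D50)
      have n23 := nc hφ U5 D50 D01 cs ψ (lab D50) (lab D01)
      have n34 := nc hφ U0 D01 D12 cs ψ (lab D01) (lab D12)
      have n45 := nc hφ U1 D12 D23 cs ψ (lab D12) (lab D23)
      refine hexagon (lab D45) (lab D50) (lab D01) (lab D12) (lab D23) (lab D34) ?_ n12 n23 n34 n45
      rw [labsymm D12, labsymm D23, labsymm D34]
      group
    have ta := hex a A0 A1 A2 A3 A4 A5 d01 d12 d23 d34 d45 d50
    have tb := hex b B0 B1 B2 B3 B4 B5 e01 e12 e23 e34 e45 e50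
    -- square
    have hsq := sq (lab d12) (lab hj) (lab hk) (lab e12) (by rw [a1]; group)
      (by
        intro h
        apply hab_i
        apply ψ.injective
        rw [a1] at h
        exact mul_left_cancel h)
      (by
        intro h
        apply w1
        apply hφ.inj
        have h2 := (lab d12).mul_self
        funext l
        by_cases hl : l = k
        · subst hl
          apply ψ.injective
          have h3 : (ψ (φ (a 1) l))⁻¹ * ψ (φ w l) = 1 := by
            calc (ψ (φ (a 1) l))⁻¹ * ψ (φ w l)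
                = ((ψ (φ (a 1) l))⁻¹ * ψ (φ (a 2) l)) * ((ψ (φ (a 2) l))⁻¹ * ψ (φ w l)) := by
                  group
              _ = 1 := by rw [← h, h2]
          exact inv_mul_eq_one.1 h3
        · rw [d12.2 l hl, hj.2 l hl])
    obtain ⟨hs1, hs2⟩ := hsq
    -- commutation
    have D5b : Dir H φ k (a 0) (b 5) := by
      have := e50.symm
      rwa [a0] at this
    have hnc := nc hφ hab d50 D5b cs ψ (lab d50) (lab D5b)
    apply hnc
    have t1 : (ψ (φ (a 5) k))⁻¹ * ψ (φ (a 0) k) = (ψ (φ (a 1) k))⁻¹ * ψ (φ (a 2) k) := ta.symm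
    have t2 : (ψ (φ (a 0) k))⁻¹ * ψ (φ (b 5) k) = (ψ (φ (b 1) k))⁻¹ * ψ (φ (b 2) k) := by
      rw [tb, labsymm D5b, a0]
    rw [t1, t2]
    -- t * u = u * t
    have h4 : ((ψ (φ (a 1) k))⁻¹ * ψ (φ (a 2) k)) * ((ψ (φ (a 2) k))⁻¹ * ψ (φ w k)) =
        ((ψ (φ (b 1) k))⁻¹ * ψ (φ (b 2) k)) * ((ψ (φ (b 2) k))⁻¹ * ψ (φ w k)) := by
      rw [a1]; group
    rw [hs2, ← hs1] at h4
    exact h4

end main

end Pool.Agent.Lib_helper16.Mediangle
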