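import Pool.Agent.Lib_helper16.Mediangle.Defs

/-!
# The tope graph of the arrangement of the seven planes `x=0, y=0, z=0, x+y=0, x+z=0, y+z=0,
x+y+z=0`: a mediangle graph with 32 vertices

Vertices are numbered `0, …, 31`; the sign vector of a vertex is the 7-bit number `code v`,
and two vertices are adjacent when their sign vectors differ in exactly one place.
-/

namespace Pool.Agent.Lib_helper16.Mediangle

/-- sign vectors of the 32 chambers, as 7-bit numbers -/
def code (v : Fin 32) : ℕ :=
  (26933385169078007183243878875343127521956144978983571099765304494080 >>> (7 * v.val)) % 128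

/-- number of ones in a 7-bit number -/
def pop (n : ℕ) : ℕ :=
  n % 2 + n / 2 % 2 + n / 4 % 2 + n / 8 % 2 + n / 16 % 2 + n / 32 % 2 + n / 64 % 2

/-- Hamming distance of sign vectors -/
def D (x y : Fin 32) : ℕ := pop (code x ^^^ code y)

theorem D_self : ∀ x, D x x = 0 := by decide +kernel
theorem D_symm : ∀ x y, D x y = D y x := by decide +kernel
theorem D_eq_zero : ∀ x y, D x y = 0 → x = y := by decide +kernel
theorem D_step : ∀ x x', D x x' = 1 → ∀ y, D x y ≤ D x' y + 1 := by decide +kernel
theorem D_exists : ∀ x y, x ≠ y → ∃ x', D x x' = 1 ∧ D x y = D x' y + 1 := by decide +kernel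

/-- The graph. -/
def X : SimpleGraph (Fin 32) where
  Adj x y := D x y = 1
  symm := ⟨fun x y (h : D x y = 1) => by show D y x = 1; rw [D_symm]; exact h⟩
  loopless := ⟨fun x (h : D x x = 1) => by rw [D_self] at h; exact absurd h (by norm_num)⟩

instance : DecidableRel X.Adj := fun x y => inferInstanceAs (Decidable (D x y = 1))

theorem X_adj (x y : Fin 32) : X.Adj x y ↔ D x y = 1 := Iff.rfl

theorem X_walk_le : ∀ {x y : Fin 32} (p : X.Walk x y), D x y ≤ p.length := by
  intro x y p
  induction p with
  | nil => simp [D_self]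
  | cons h p ih =>
    rename_i u v w
    have := D_step u v h w
    simp only [SimpleGraph.Walk.length_cons]
    omega

theorem X_exists_walk : ∀ (n : ℕ) (x y : Fin 32), D x y = n → ∃ p : X.Walk x y, p.length = n := by
  intro n
  induction n with
  | zero =>
    intro x y h
    have := D_eq_zero x y h
    subst this
    exact ⟨.nil, rfl⟩
  | succ n ih =>
    intro x y h
    have hne : x ≠ y := by
      rintro rfl
      rw [D_self] at h
      omega
    obtain ⟨x', h1, h2⟩ := D_exists x y hne
    obtain ⟨p, hp⟩ := ih x' y (by omega)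
    have h1' : X.Adj x x' := h1
    exact ⟨.cons h1' p, by rw [SimpleGraph.Walk.length_cons, hp]⟩

theorem X_reachable (x y : Fin 32) : X.Reachable x y := by
  obtain ⟨p, -⟩ := X_exists_walk _ x y rfl
  exact ⟨p⟩

theorem X_dist (x y : Fin 32) : X.dist x y = D x y := by
  apply le_antisymm
  · obtain ⟨p, hp⟩ := X_exists_walk _ x y rfl
    rw [← hp]
    exact SimpleGraph.dist_le p
  · obtain ⟨p, hp⟩ := (X_reachable x y).exists_walk_length_eq_dist
    rw [← hp]
    exact X_walk_le p

theorem mem_interval (x y z : Fin 32) : z ∈ interval X x y ↔ D x y = D x z + D z y := by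
  constructor
  · rintro ⟨-, -, h⟩
    simpa only [X_dist] using h
  · intro h
    refine ⟨X_reachable _ _, X_reachable _ _, ?_⟩
    simpa only [X_dist] using h

/-- the six squares, in both orientations -/
def sqT (f : Fin 12) (i : ZMod (2 * 2)) : Fin 32 :=
  Fin.ofNat 32 (1599364704598044656958604037406871914016569966482988675747915039007412289 >>>
    (5 * (4 * f.val + ZMod.val i)))

/-- the twelve hexagons, in both orientations -/
def hxT (f : Fin 24) (i : ZMod (2 * 3)) : Fin 32 :=
  Fin.ofNat 32 (4276779408187718570192651383370083688953539077714765421760240156425879069768644591991561348614635753980945682940059268985345442951149270408965814048553833521031477481801598364591404330097456714927851413462186118711328 >>>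
    (5 * (6 * f.val + ZMod.val i)))

/-- the vertex sets of the eighteen faces, as bit masks -/
def mask (f : Fin 18) : ℕ :=
  219372887839948769505983358686735777459341998342857897270432878025788006770887833812464203010069079013422353119485689736063145899956220297851155479520450308459554634737909790 >>>
    (32 * f.val)

/-- membership in a face -/
def inFace (f : Fin 18) (v : Fin 32) : Bool := (mask f).testBit v.val

theorem sqT_inj : ∀ f i j, sqT f i = sqT f j → i = j := by decide +kernel
theorem sqT_adj : ∀ f (i j : ZMod (2 * 2)), D (sqT f i) (sqT f j) = 1 ↔ (j = i + 1 ∨ i = j + 1) := by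
  decide +kernel
theorem sqT_conv : ∀ f i j, ∀ w, D (sqT f i) (sqT f j) = D (sqT f i) w + D w (sqT f j) →
    ∃ l, sqT f l = w := by decide +kernel
theorem hxT_inj : ∀ f i j, hxT f i = hxT f j → i = j := by decide +kernel
theorem hxT_adj : ∀ f (i j : ZMod (2 * 3)), D (hxT f i) (hxT f j) = 1 ↔ (j = i + 1 ∨ i = j + 1) := by
  decide +kernel
theorem hxT_conv : ∀ f i j, ∀ w, D (hxT f i) (hxT f j) = D (hxT f i) w + D w (hxT f j) →
    ∃ l, hxT f l = w := by decide +kernel

theorem sqT_face : ∀ f, ∃ g : Fin 18, ∀ v, (∃ l, sqT f l = v) ↔ inFace g v = true := by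
  decide +kernel
theorem hxT_face : ∀ f, ∃ g : Fin 18, ∀ v, (∃ l, hxT f l = v) ↔ inFace g v = true := by
  decide +kernel

/-- conditions on the face with the angle `x, z, y` -/
def sqOK (z x y : Fin 32) (f : Fin 12) (i : ZMod (2 * 2)) : Prop :=
  ∀ o, D o x = D o y → D o z = D o x + 1 →
    (D o x = D o (sqT f (i + 2)) + D (sqT f (i + 2)) x ∧
      D o y = D o (sqT f (i + 2)) + D (sqT f (i + 2)) y) ∧
    ∀ j, D z o = D z (sqT f j) + D (sqT f j) o

/-- conditions on the face with the angle `x, z, y` -/
def hxOK (z x y : Fin 32) (f : Fin 24) (i : ZMod (2 * 3)) : Prop :=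
  ∀ o, D o x = D o y → D o z = D o x + 1 →
    (D o x = D o (hxT f (i + 3)) + D (hxT f (i + 3)) x ∧
      D o y = D o (hxT f (i + 3)) + D (hxT f (i + 3)) y) ∧
    ∀ j, D z o = D z (hxT f j) + D (hxT f j) o

instance (z x y : Fin 32) (f : Fin 12) (i : ZMod (2 * 2)) : Decidable (sqOK z x y f i) := by
  unfold sqOK; infer_instance

instance (z x y : Fin 32) (f : Fin 24) (i : ZMod (2 * 3)) : Decidable (hxOK z x y f i) := by
  unfold hxOK; infer_instance

/-- the face lemma: for every angle `x, z, y` the square or hexagon containing it -/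
theorem angle_dec : ∀ z x, D x z = 1 → ∀ y, x ≠ y → D y z = 1 →
    (∃ f, ∃ i : ZMod (2 * 2), sqT f i = z ∧ sqT f (i + 1) = x ∧ sqT f (i - 1) = y ∧
      sqOK z x y f i) ∨
    (∃ f, ∃ i : ZMod (2 * 3), hxT f i = z ∧ hxT f (i + 1) = x ∧ hxT f (i - 1) = y ∧
      hxOK z x y f i) := by
  decide +kernel

/-- two distinct faces share at most one edge -/
theorem faces_share : ∀ f g : Fin 18, f ≠ g → ∀ a, inFace f a = true → inFace g a = true →
    ∀ b, inFace f b = true → inFace g b = true → D a b = 1 →
    ∀ c, inFace f c = true → inFace g c = true → ∀ d, inFace f d = true → inFace g d = true →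
      D c d = 1 → (a = c ∧ b = d) ∨ (a = d ∧ b = c) := by
  decide +kernel

end Pool.Agent.Lib_helper16.Mediangle
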