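import Pool.Agent.Lib_helper16.Mediangle.X32
import Pool.Agent.Lib_helper16.Mediangle.Embed

/-!
# The 32-vertex graph is mediangle, its hyperplanes are pairwise transverse
-/

namespace Pool.Agent.Lib_helper16.Mediangle

theorem sqT_cycle (f : Fin 12) : IsConvexEvenCycle X 2 (sqT f) where
  two_le := le_rfl
  injective := fun i j h => sqT_inj f i j h
  adj_iff := fun i j => sqT_adj f i j
  convex := by
    rintro _ ⟨i, rfl⟩ _ ⟨j, rfl⟩ w hw
    rw [mem_interval] at hw
    exact sqT_conv f i j w hw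

theorem hxT_cycle (f : Fin 24) : IsConvexEvenCycle X 3 (hxT f) where
  two_le := by norm_num
  injective := fun i j h => hxT_inj f i j h
  adj_iff := fun i j => hxT_adj f i j
  convex := by
    rintro _ ⟨i, rfl⟩ _ ⟨j, rfl⟩ w hw
    rw [mem_interval] at hw
    exact hxT_conv f i j w hw

/-- the face lemma -/
theorem angle (z x y : Fin 32) (hx : D x z = 1) (hy : D y z = 1) (hxy : x ≠ y) :
    ∃ (k : ℕ) (c : ZMod (2 * k) → Fin 32) (g : Fin 18), IsConvexEvenCycle X k c ∧
      (∀ v, (∃ l, c l = v) ↔ inFace g v = true) ∧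
      ∃ i, c i = z ∧ c (i + 1) = x ∧ c (i - 1) = y ∧
        ∀ o, D o x = D o y → D o z = D o x + 1 →
          (D o x = D o (c (i + k)) + D (c (i + k)) x ∧
            D o y = D o (c (i + k)) + D (c (i + k)) y) ∧
          ∀ j, D z o = D z (c j) + D (c j) o := by
  rcases angle_dec z x hx y hxy hy with ⟨f, i, h1, h2, h3, h4⟩ | ⟨f, i, h1, h2, h3, h4⟩
  · obtain ⟨g, hg⟩ := sqT_face f
    exact ⟨2, sqT f, g, sqT_cycle f, hg, i, h1, h2, h3, h4⟩
  · obtain ⟨g, hg⟩ := hxT_face f
    exact ⟨3, hxT f, g, hxT_cycle f, hg, i, h1, h2, h3, h4⟩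

section general

variable {k : ℕ} {c : ZMod (2 * k) → Fin 32}

lemma steps (hc : IsConvexEvenCycle X k c) : ∀ (n : ℕ) (i j : ZMod (2 * k)),
    D (c i) (c j) = n → ∃ m : ℤ, |m| ≤ n ∧ j = i + (m : ZMod (2 * k)) := by
  intro n
  induction n with
  | zero =>
    intro i j h
    refine ⟨0, by simp, ?_⟩
    have := hc.injective (D_eq_zero _ _ h)
    simp [this]
  | succ n ih =>
    intro i j h
    have hne : c i ≠ c j := by
      intro h'
      rw [h', D_self] at h
      omega
    obtain ⟨x', h1, h2⟩ := D_exists _ _ hne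
    have hmem : x' ∈ Set.range c := by
      apply hc.convex _ ⟨i, rfl⟩ _ ⟨j, rfl⟩
      rw [mem_interval]
      omega
    obtain ⟨i', rfl⟩ := hmem
    have hadj : X.Adj (c i) (c i') := h1
    obtain ⟨m, hm, hj⟩ := ih i' j (by omega)
    rcases (hc.adj_iff i i').1 hadj with h | h
    · refine ⟨m + 1, ?_, ?_⟩
      · have := abs_add_le m 1
        push_cast
        simp only [abs_one] at this
        omega
      · rw [hj, h]; push_cast; ring
    · refine ⟨m - 1, ?_, ?_⟩
      · have := abs_sub m 1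
        push_cast
        simp only [abs_one] at this
        omega
      · rw [hj, h]; push_cast; ring

lemma walk_le (hc : IsConvexEvenCycle X k c) : ∀ (n : ℕ) (i : ZMod (2 * k)),
    D (c i) (c (i + n)) ≤ n := by
  intro n
  induction n with
  | zero => intro i; simp [D_self]
  | succ n ih =>
    intro i
    have h1 : X.Adj (c i) (c (i + 1)) := (hc.adj_iff i (i + 1)).2 (Or.inl rfl)
    have h2 := D_step (c i) (c (i + 1)) h1 (c (i + (n + 1 : ℕ)))
    have h3 := ih (i + 1)
    have h4 : i + 1 + (n : ZMod (2 * k)) = i + ((n + 1 : ℕ) : ZMod (2 * k)) := by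
      push_cast; ring
    rw [h4] at h3
    omega

lemma D_opposite (hc : IsConvexEvenCycle X k c) : D (c 0) (c k) = k := by
  apply le_antisymm
  · have := walk_le hc k 0
    rwa [zero_add] at this
  · obtain ⟨m, hm, hj⟩ := steps hc _ 0 k rfl
    rw [zero_add] at hj
    have h1 : ((m - (k : ℤ) : ℤ) : ZMod (2 * k)) = 0 := by
      push_cast
      rw [← hj]; ring
    rw [ZMod.intCast_zmod_eq_zero_iff_dvd] at h1
    obtain ⟨q, hq⟩ := h1
    have hk := hc.two_le
    by_contra hlt
    rw [not_le] at hlt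
    have h2 : |m| < k := by
      have : ((D (c 0) (c k) : ℕ) : ℤ) < k := by exact_mod_cast hlt
      omega
    rw [abs_lt] at h2
    push_cast at hq
    have h3 : (2 * (k : ℤ)) * q < 0 := by rw [← hq]; linarith
    have h4 : -(2 * (k : ℤ)) < (2 * (k : ℤ)) * q := by rw [← hq]; linarith
    have hk' : (0 : ℤ) < 2 * k := by omega
    have h5 : q < 0 := by
      by_contra h
      rw [not_lt] at h
      have := mul_nonneg hk'.le h
      omega
    have h6 : q ≤ -1 := by omega
    have h7 : (2 * (k : ℤ)) * q ≤ (2 * (k : ℤ)) * (-1) := mul_le_mul_of_nonneg_left h6 hk'.le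
    omega

end general

lemma two_ne_zero' {k : ℕ} (hk : 2 ≤ k) : ((2 : ℕ) : ZMod (2 * k)) ≠ 0 := by
  rw [Ne, ZMod.natCast_eq_zero_iff]
  intro h
  have := Nat.le_of_dvd (by norm_num) h
  omega

lemma nested {V : Type*} {G : SimpleGraph V} {k k' : ℕ} {c : ZMod (2 * k) → V}
    {c' : ZMod (2 * k') → V} (hc : IsConvexEvenCycle G k c) (hc' : IsConvexEvenCycle G k' c')
    (hsub : Set.range c' ⊆ Set.range c) : Set.range c' = Set.range c := by
  apply Set.Subset.antisymm hsub
  obtain ⟨j₀, hj₀⟩ := hsub ⟨0, rfl⟩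
  have key : ∀ n : ℕ, c (j₀ + n) ∈ Set.range c' := by
    intro n
    induction n with
    | zero => exact ⟨0, by simp [hj₀]⟩
    | succ n ih =>
      obtain ⟨l, hl⟩ := ih
      obtain ⟨a, ha⟩ := hsub ⟨l + 1, rfl⟩
      obtain ⟨b, hb⟩ := hsub ⟨l - 1, rfl⟩
      have h1 : G.Adj (c (j₀ + n)) (c a) := by
        rw [← hl, ha]; exact (hc'.adj_iff _ _).2 (Or.inl rfl)
      have h2 : G.Adj (c (j₀ + n)) (c b) := by
        rw [← hl, hb]; exact (hc'.adj_iff _ _).2 (Or.inr (by ring))
      rcases (hc.adj_iff _ _).1 h1 with h1 | h1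
      · refine ⟨l + 1, ?_⟩
        rw [← ha, h1]
        push_cast
        rw [add_assoc]
      · rcases (hc.adj_iff _ _).1 h2 with h2 | h2
        · refine ⟨l - 1, ?_⟩
          rw [← hb, h2]
          push_cast
          rw [add_assoc]
        · exfalso
          have hab : a = b := by
            have : a + 1 = b + 1 := h1.symm.trans h2
            exact add_right_cancel this
          rw [hab, hb] at ha
          have h3 := hc'.injective ha
          apply two_ne_zero' hc'.two_le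
          push_cast
          calc (2 : ZMod (2 * k')) = (l + 1) - (l - 1) := by ring
            _ = 0 := by rw [← h3]; ring
  rintro _ ⟨i, rfl⟩
  have : NeZero (2 * k) := ⟨by have := hc.two_le; omega⟩
  have hkey := key (i - j₀).val
  rwa [ZMod.natCast_zmod_val, add_sub_cancel] at hkey

/-- every convex even cycle is one of the eighteen faces -/
theorem classify {k : ℕ} {c : ZMod (2 * k) → Fin 32} (hc : IsConvexEvenCycle X k c) :
    ∃ g : Fin 18, ∀ v, v ∈ Set.range c ↔ inFace g v = true := by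
  have hk := hc.two_le
  have hne : c 1 ≠ c (-1) := by
    intro h
    have := hc.injective h
    apply two_ne_zero' hk
    push_cast
    calc (2 : ZMod (2 * k)) = 1 - (-1) := by ring
      _ = 0 := by rw [← this]; ring
  have hx : D (c 1) (c 0) = 1 := (hc.adj_iff 1 0).2 (Or.inr (by ring))
  have hy : D (c (-1)) (c 0) = 1 := (hc.adj_iff (-1) 0).2 (Or.inl (by ring))
  obtain ⟨k', c', g, hc', hg, i, hi, hi1, hi2, hall⟩ := angle (c 0) (c 1) (c (-1)) hx hy hne
  have hop := D_opposite hc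
  -- distances
  have d1 : D (c 1) (c k) ≤ k - 1 := by
    have := walk_le hc (k - 1) 1
    have e : (1 : ZMod (2 * k)) + ((k - 1 : ℕ) : ZMod (2 * k)) = k := by
      rw [Nat.cast_sub (by omega)]; push_cast; ring
    rwa [e] at this
  have d2 : D (c k) (c (-1)) ≤ k - 1 := by
    have := walk_le hc (k - 1) k
    have e : (k : ZMod (2 * k)) + ((k - 1 : ℕ) : ZMod (2 * k)) = -1 := by
      rw [Nat.cast_sub (by omega)]
      have h0 : ((2 * k : ℕ) : ZMod (2 * k)) = 0 := ZMod.natCast_self _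
      push_cast at h0 ⊢
      linear_combination h0
    rwa [e] at this
  have d3 := D_step (c 0) (c 1) (by rw [D_symm]; exact hx) (c k)
  have d4 := D_step (c 0) (c (-1)) (by rw [D_symm]; exact hy) (c k)
  have s1 := D_symm (c k) (c 0)
  have s2 := D_symm (c k) (c 1)
  have s3 := D_symm (c k) (c (-1))
  obtain ⟨-, hincl⟩ := hall (c k) (by omega) (by omega)
  have hsub : Set.range c' ⊆ Set.range c := by
    rintro _ ⟨j, rfl⟩
    apply hc.convex _ ⟨0, rfl⟩ _ ⟨k, rfl⟩
    rw [mem_interval]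
    exact hincl j
  have heq := nested hc hc' hsub
  refine ⟨g, fun v => ?_⟩
  rw [← heq]
  exact hg v

lemma mem_cycleEdges {k : ℕ} {c : ZMod (2 * k) → Fin 32} (hc : IsConvexEvenCycle X k c)
    {e : Sym2 (Fin 32)} (he : e ∈ cycleEdges c) :
    ∃ a ∈ Set.range c, ∃ b ∈ Set.range c, D a b = 1 ∧ e = s(a, b) := by
  obtain ⟨i, rfl⟩ := he
  exact ⟨_, ⟨i, rfl⟩, _, ⟨i + 1, rfl⟩, (hc.adj_iff _ _).2 (Or.inl rfl), rfl⟩

theorem X_mediangle : IsMediangle X where
  connected := by
    have : Nonempty (Fin 32) := ⟨0⟩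
    exact SimpleGraph.connected_iff_exists_forall_reachable _ |>.2 ⟨0, fun w => X_reachable _ _⟩
  triangle := by
    intro o x y h1 h2
    exfalso
    rw [X_dist, X_dist] at h1
    rw [X_dist] at h2
    revert h1
    have : ∀ x y : Fin 32, D x y = 1 → ∀ o, D o x ≠ D o y := by decide +kernel
    exact this x y h2 o
  no_diamond := by
    intro a b c d _ _ hcd hac had _
    exfalso
    have : ∀ x y : Fin 32, D x y = 1 → ∀ z, D x z = 1 → D y z ≠ 1 := by decide +kernel
    exact this a c hac d had hcd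
  cycle := by
    intro o x y z hxy h1 h2 h3 h4
    rw [X_dist] at h3 h4
    rw [X_dist, X_dist] at h1 h2
    obtain ⟨k, c, g, hc, -, i, hi, hi1, hi2, hall⟩ := angle z x y h3 h4 hxy
    refine ⟨k, c, hc, i, hi, hi1, hi2, ?_⟩
    obtain ⟨⟨h5, h6⟩, -⟩ := hall o h1 h2
    exact ⟨(mem_interval _ _ _).2 h5, (mem_interval _ _ _).2 h6⟩
  inter := by
    intro k c k' c' hc hc' hne e he e' he'
    obtain ⟨g, hg⟩ := classify hc
    obtain ⟨g', hg'⟩ := classify hc'
    have hgg : g ≠ g' := by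
      rintro rfl
      apply hne
      ext v
      rw [hg, hg']
    have aux : ∀ e ∈ cycleEdges c ∩ cycleEdges c', ∃ a b, D a b = 1 ∧ e = s(a, b) ∧
        inFace g a = true ∧ inFace g b = true ∧ inFace g' a = true ∧ inFace g' b = true := by
      rintro e ⟨h1, h2⟩
      obtain ⟨a, ha, b, hb, hab, rfl⟩ := mem_cycleEdges hc h1
      obtain ⟨a', ha', b', hb', hab', h'⟩ := mem_cycleEdges hc' h2
      rw [hg] at ha hb
      rw [hg'] at ha' hb'
      rcases Sym2.eq_iff.1 h' with ⟨rfl, rfl⟩ | ⟨rfl, rfl⟩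
      · exact ⟨a, b, hab, rfl, ha, hb, ha', hb'⟩
      · exact ⟨a, b, hab, rfl, ha, hb, hb', ha'⟩
    obtain ⟨a, b, hab, rfl, ha, hb, ha', hb'⟩ := aux e he
    obtain ⟨x, y, hxy, rfl, hx, hy, hx', hy'⟩ := aux e' he'
    rcases faces_share g g' hgg a ha ha' b hb hb' hab x hx hx' y hy hy' hxy with
      ⟨rfl, rfl⟩ | ⟨rfl, rfl⟩
    · rfl
    · exact Sym2.eq_swap

/-! ### Hyperplanes -/

/-- the label of an edge: the bit in which the sign vectors of its ends differ -/
def lab (x y : Fin 32) : ℕ := code x ^^^ code y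

/-- base edge of each class -/
def baseP (l : ℕ) : Fin 32 :=
  if l = 1 then 4 else if l = 2 then 1 else if l = 4 then 1 else if l = 8 then 6 else 0

/-- base edge of each class -/
def baseQ (l : ℕ) : Fin 32 :=
  if l = 1 then 5 else if l = 2 then 2 else if l = 4 then 3 else if l = 8 then 8 else
    if l = 16 then 1 else if l = 32 then 6 else 16

/-- rank of an edge -/
def rk (x y : Fin 32) : ℕ := D x (baseP (lab x y)) + D y (baseP (lab x y))

/-- descent through a square -/
def sqDesc (x y : Fin 32) (f : Fin 12) (i : ZMod (2 * 2)) : Prop :=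
  sqT f i = x ∧ sqT f (i + 1) = y ∧ lab (sqT f (i + 2)) (sqT f (i + 2 + 1)) = lab x y ∧
    rk (sqT f (i + 2)) (sqT f (i + 2 + 1)) < rk x y

/-- descent through a hexagon -/
def hxDesc (x y : Fin 32) (f : Fin 24) (i : ZMod (2 * 3)) : Prop :=
  hxT f i = x ∧ hxT f (i + 1) = y ∧ lab (hxT f (i + 3)) (hxT f (i + 3 + 1)) = lab x y ∧
    rk (hxT f (i + 3)) (hxT f (i + 3 + 1)) < rk x y

instance (x y : Fin 32) (f : Fin 12) (i : ZMod (2 * 2)) : Decidable (sqDesc x y f i) := by
  unfold sqDesc; infer_instance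

instance (x y : Fin 32) (f : Fin 24) (i : ZMod (2 * 3)) : Decidable (hxDesc x y f i) := by
  unfold hxDesc; infer_instance

theorem desc : ∀ x y, D x y = 1 →
    (x = baseP (lab x y) ∧ y = baseQ (lab x y)) ∨ (y = baseP (lab x y) ∧ x = baseQ (lab x y)) ∨
    (∃ f i, sqDesc x y f i) ∨ (∃ f i, hxDesc x y f i) := by
  decide +kernel

theorem eqv_base : ∀ (n : ℕ) (x y : Fin 32), D x y = 1 → rk x y = n →
    Relation.EqvGen (EdgeRel X) s(x, y) s(baseP (lab x y), baseQ (lab x y)) := by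
  intro n
  induction n using Nat.strong_induction_on with
  | _ n ih =>
    intro x y hxy hn
    rcases desc x y hxy with ⟨h1, h2⟩ | ⟨h1, h2⟩ | ⟨f, i, h1, h2, h3, h4⟩ | ⟨f, i, h1, h2, h3, h4⟩
    · rw [← h1, ← h2]; exact Relation.EqvGen.refl _
    · rw [← h1, ← h2, Sym2.eq_swap]; exact Relation.EqvGen.refl _
    · have hadj : D (sqT f (i + 2)) (sqT f (i + 2 + 1)) = 1 :=
        (sqT_adj f _ _).2 (Or.inl rfl)
      have h5 := ih _ (by omega) _ _ hadj rfl
      rw [h3] at h5
      refine Relation.EqvGen.trans _ _ _ ?_ h5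
      apply Relation.EqvGen.rel
      have := EdgeRel.opposite (G := X) 2 (sqT f) (sqT_cycle f) i
      rw [h1, h2] at this
      exact this
    · have hadj : D (hxT f (i + 3)) (hxT f (i + 3 + 1)) = 1 :=
        (hxT_adj f _ _).2 (Or.inl rfl)
      have h5 := ih _ (by omega) _ _ hadj rfl
      rw [h3] at h5
      refine Relation.EqvGen.trans _ _ _ ?_ h5
      apply Relation.EqvGen.rel
      have := EdgeRel.opposite (G := X) 3 (hxT f) (hxT_cycle f) i
      rw [h1, h2] at this
      exact this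

theorem eqv_of_lab {x y x' y' : Fin 32} (h : D x y = 1) (h' : D x' y' = 1)
    (hl : lab x y = lab x' y') : Relation.EqvGen (EdgeRel X) s(x, y) s(x', y') := by
  have h1 := eqv_base _ x y h rfl
  have h2 := eqv_base _ x' y' h' rfl
  rw [hl] at h1
  exact h1.trans _ _ _ (h2.symm _ _)

theorem lab_pow : ∀ x y, D x y = 1 → ∃ b : Fin 7, lab x y = 2 ^ b.val := by decide +kernel

/-- consecutive edges with given labels in a square -/
def sqCons (b b' : ℕ) (f : Fin 12) (i : ZMod (2 * 2)) : Prop :=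
  lab (sqT f (i - 1)) (sqT f i) = b ∧ lab (sqT f i) (sqT f (i + 1)) = b'

/-- consecutive edges with given labels in a hexagon -/
def hxCons (b b' : ℕ) (f : Fin 24) (i : ZMod (2 * 3)) : Prop :=
  lab (hxT f (i - 1)) (hxT f i) = b ∧ lab (hxT f i) (hxT f (i + 1)) = b'

instance (b b' : ℕ) (f : Fin 12) (i : ZMod (2 * 2)) : Decidable (sqCons b b' f i) := by
  unfold sqCons; infer_instance

instance (b b' : ℕ) (f : Fin 24) (i : ZMod (2 * 3)) : Decidable (hxCons b b' f i) := by
  unfold hxCons; infer_instance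

theorem cons_exists : ∀ b b' : Fin 7, b ≠ b' →
    (∃ f i, sqCons (2 ^ b.val) (2 ^ b'.val) f i) ∨ (∃ f i, hxCons (2 ^ b.val) (2 ^ b'.val) f i) := by
  decide +kernel

theorem X_transverse (J₁ J₂ : Set (Sym2 (Fin 32))) (h₁ : IsHyperplane X J₁)
    (h₂ : IsHyperplane X J₂) (hne : J₁ ≠ J₂) : Transverse X J₁ J₂ := by
  obtain ⟨e₁, he₁, rfl⟩ := h₁
  obtain ⟨e₂, he₂, rfl⟩ := h₂
  induction e₁ using Sym2.ind with | _ x y =>
  induction e₂ using Sym2.ind with | _ x' y' =>
  have hxy : D x y = 1 := he₁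
  have hxy' : D x' y' = 1 := he₂
  have hlab : lab x y ≠ lab x' y' := by
    intro h
    apply hne
    ext e
    have hh := eqv_of_lab hxy hxy' h
    exact ⟨fun ⟨h1, h2⟩ => ⟨h1, (hh.symm _ _).trans _ _ _ h2⟩, fun ⟨h1, h2⟩ => ⟨h1, hh.trans _ _ _ h2⟩⟩
  obtain ⟨b, hb⟩ := lab_pow x y hxy
  obtain ⟨b', hb'⟩ := lab_pow x' y' hxy'
  have hbb : b ≠ b' := by
    rintro rfl
    exact hlab (hb.trans hb'.symm)
  rcases cons_exists b b' hbb with ⟨f, i, h1, h2⟩ | ⟨f, i, h1, h2⟩
  · have a1 : D (sqT f (i - 1)) (sqT f i) = 1 := (sqT_adj f _ _).2 (Or.inl (by ring))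
    have a2 : D (sqT f i) (sqT f (i + 1)) = 1 := (sqT_adj f _ _).2 (Or.inl rfl)
    refine ⟨2, sqT f, sqT_cycle f, i, Or.inl ⟨⟨a1, eqv_of_lab hxy a1 ?_⟩, ⟨a2, eqv_of_lab hxy' a2 ?_⟩⟩⟩
    · rw [hb, h1]
    · rw [hb', h2]
  · have a1 : D (hxT f (i - 1)) (hxT f i) = 1 := (hxT_adj f _ _).2 (Or.inl (by ring))
    have a2 : D (hxT f i) (hxT f (i + 1)) = 1 := (hxT_adj f _ _).2 (Or.inl rfl)
    refine ⟨3, hxT f, hxT_cycle f, i, Or.inl ⟨⟨a1, eqv_of_lab hxy a1 ?_⟩, ⟨a2, eqv_of_lab hxy' a2 ?_⟩⟩⟩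
    · rw [hb, h1]
    · rw [hb', h2]

theorem X_monolith : IsMonolith X Set.univ := by
  refine ⟨fun x => ⟨x, Set.mem_univ _, fun z _ => ?_⟩, ?_⟩
  · rw [mem_interval, D_self, zero_add]
  · intro J₁ J₂ h₁ h₂ hne _ _
    exact X_transverse J₁ J₂ h₁ h₂ hne

/-! ### No embedding -/

/-- first hexagon -/
def hexA : ℕ → Fin 32 := fun n => [0, 1, 2, 11, 7, 6].getD n 0
/-- second hexagon -/
def hexB : ℕ → Fin 32 := fun n => [0, 1, 3, 21, 17, 16].getD n 0

instance (x z y : Fin 32) : Decidable (UCN X x z y) := by unfold UCN; infer_instance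

theorem X_config : Config X hexA hexB 4 where
  a0 := by decide +kernel
  a1 := by decide +kernel
  ha := by decide +kernel
  hb := by decide +kernel
  hab := by decide +kernel
  ne := by decide +kernel
  nadj := by decide +kernel
  w1 := by decide +kernel
  aw := by decide +kernel
  bw := by decide +kernel

end Pool.Agent.Lib_helper16.Mediangle
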